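import Pool.Agent.H98.EU.SDefs

/-!
# beta: sequences of standard length in models of `PA⁻` (Chinese remainders)
-/

set_option autoImplicit false

namespace Pool.Agent.H39.EU

open Pool.Agent.H98.EU

section Cg

variable {M : Type} [CommSemiring M]

def Cg (m x y : M) : Prop := ∃ p q, x + p * m = y + q * m

theorem Cg.refl (m x : M) : Cg m x x := ⟨0, 0, rfl⟩

theorem Cg.trans {m x y z : M} (h : Cg m x y) (h' : Cg m y z) : Cg m x z := by
  obtain ⟨p, q, h⟩ := h
  obtain ⟨p', q', h'⟩ := h'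
  refine ⟨p + p', q' + q, ?_⟩
  calc x + (p + p') * m = (x + p * m) + p' * m := by ring
    _ = (y + q * m) + p' * m := by rw [h]
    _ = (y + p' * m) + q * m := by ring
    _ = (z + q' * m) + q * m := by rw [h']
    _ = z + (q' + q) * m := by ring

theorem Cg.add {m x y x' y' : M} (h : Cg m x y) (h' : Cg m x' y') : Cg m (x + x') (y + y') := by
  obtain ⟨p, q, h⟩ := h
  obtain ⟨p', q', h'⟩ := h'
  refine ⟨p + p', q + q', ?_⟩
  calc x + x' + (p + p') * m = (x + p * m) + (x' + p' * m) := by ring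
    _ = (y + q * m) + (y' + q' * m) := by rw [h, h']
    _ = y + y' + (q + q') * m := by ring

theorem Cg.mul_left {m x y : M} (z : M) (h : Cg m x y) : Cg m (z * x) (z * y) := by
  obtain ⟨p, q, h⟩ := h
  refine ⟨z * p, z * q, ?_⟩
  calc z * x + z * p * m = z * (x + p * m) := by ring
    _ = z * (y + q * m) := by rw [h]
    _ = z * y + z * q * m := by ring

theorem Cg.mul {m x y x' y' : M} (h : Cg m x y) (h' : Cg m x' y') : Cg m (x * x') (y * y') := by
  have h1 := h'.mul_left x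
  have h2 := h.mul_left y'
  rw [mul_comm y' x, mul_comm y' y] at h2
  exact h1.trans h2

theorem Cg.zero (m c : M) : Cg m (c * m) 0 := ⟨0, c, by ring⟩

theorem Cg.inv (I D c : M) :
    Cg (1 + (I + D) * (D * c)) ((1 + I * (D * c)) * ((I + D) ^ 3 * (D * c) * c)) 1 :=
  ⟨((I + D) * (D * c)) ^ 2 + 1, (I + D) ^ 3 * (D * c) * c + (I + D) * (D * c), by ring⟩

variable [LinearOrder M]

theorem Cg.fin (P : PAminus M) {m x y : M} (h : Cg m x y) (hy : y < m) : ∃ q, x = q * m + y := by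
  obtain ⟨p, q, h⟩ := h
  rcases lt_trichotomy p q with hpq | hpq | hpq
  · obtain ⟨d, rfl⟩ := P.sub p q hpq
    refine ⟨d, P.add_cancel (z := p * m) ?_⟩
    rw [h]; ring
  · subst hpq
    exact ⟨0, by rw [P.add_cancel h]; ring⟩
  · obtain ⟨d, rfl⟩ := P.sub q p hpq
    have e : x + d * m = y := P.add_cancel (z := q * m) (by rw [← h]; ring)
    have hd : 1 ≤ d := P.discrete d (by
      rcases (P.nonneg d).lt_or_eq with h0 | h0
      · exact h0
      · rw [← h0, add_zero] at hpq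
        exact absurd hpq (lt_irrefl _))
    have h1 : m ≤ d * m := by simpa using P.mul_le hd m
    have h2 : d * m ≤ x + d * m := by rw [add_comm]; exact P.le_add _ _
    exact absurd (h1.trans (h2.trans e.le)) (not_le.mpr hy)

theorem one_bd (_P : PAminus M) (W : M) : (1 : M) ≤ (W + 2) ^ 0 := by rw [pow_zero]

theorem b_bd (P : PAminus M) (W : M) (n : ℕ) : (n : M) * (W + 1) ≤ (W + 2) ^ (n + 2) :=
  P.mul_bd (P.cast_bd W n) (P.add_bd (P.le_pow_one le_rfl) (one_bd P W))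

theorem m_bd (P : PAminus M) (W : M) (j n : ℕ) :
    1 + ((j : M) + 1) * ((n : M) * (W + 1)) ≤ (W + 2) ^ (0 + (j + 1 + (n + 2)) + 1) := by
  have h := P.cast_bd W (j + 1)
  rw [Nat.cast_succ] at h
  exact P.add_bd (one_bd P W) (P.mul_bd h (b_bd P W n))

end Cg

open Nat in
/-- `Q` is `1` modulo `m k` and `0` modulo `m i` for `i < j` -/
theorem idem (N k : ℕ) (hk : k < N) : ∀ j ≤ k, ∃ E : ℕ, ∀ (M : Type) [CommSemiring M] [LinearOrder M], PAminus M → ∀ (W : M),
    ∃ Q : M, Q ≤ (W + 2) ^ E ∧ Cg (1 + ((k : M) + 1) * (((N !) : M) * (W + 1))) Q 1 ∧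
      ∀ i < j, Cg (1 + ((i : M) + 1) * (((N !) : M) * (W + 1))) Q 0 := by
  intro j
  induction j with
  | zero =>
    intro _
    exact ⟨0, fun M _ _ P W => ⟨1, one_bd P W, Cg.refl _ _, fun i hi => absurd hi (Nat.not_lt_zero i)⟩⟩
  | succ j ih =>
    intro hj
    obtain ⟨E, hE⟩ := ih (by omega)
    have hd : (k - j) ∣ N ! := Nat.dvd_factorial (by omega) (by omega)
    refine ⟨E + ((0 + (j + 1 + (N ! + 2)) + 1) + ((k + 1) * 3 + (N ! + 2) + (N ! / (k - j) + 2))), fun M _ _ P W => ?_⟩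
    obtain ⟨Q, hQ, hQ1, hQ0⟩ := hE M P W
    have e1 : ((k - j : ℕ) : M) * (((N ! / (k - j) : ℕ) : M) * (W + 1)) = ((N ! : ℕ) : M) * (W + 1) := by
      rw [← mul_assoc, ← Nat.cast_mul, Nat.mul_div_cancel' hd]
    have e2 : ((j : M) + 1) + ((k - j : ℕ) : M) = (k : M) + 1 := by
      have : (j + 1) + (k - j) = k + 1 := by omega
      have h := congrArg (Nat.cast : ℕ → M) this
      push_cast at h
      exact h
    have hinv := Cg.inv ((j : M) + 1) ((k - j : ℕ) : M) (((N ! / (k - j) : ℕ) : M) * (W + 1))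
    rw [e1, e2] at hinv
    refine ⟨Q * ((1 + ((j : M) + 1) * (((N ! : ℕ) : M) * (W + 1))) *
      (((k : M) + 1) ^ 3 * (((N ! : ℕ) : M) * (W + 1)) * (((N ! / (k - j) : ℕ) : M) * (W + 1)))), ?_, ?_, ?_⟩
    · have h3 : ((k : M) + 1) ^ 3 ≤ (W + 2) ^ ((k + 1) * 3) := by
        have h := P.cast_bd W (k + 1)
        rw [Nat.cast_succ] at h
        rw [pow_mul]
        exact P.pow_le_pow h 3
      exact P.mul_bd hQ (P.mul_bd (m_bd P W j (N !)) (P.mul_bd (P.mul_bd h3 (b_bd P W (N !))) (b_bd P W (N ! / (k - j)))))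
    · have := hQ1.mul hinv
      rwa [one_mul] at this
    · intro i hi
      rcases Nat.lt_succ_iff_lt_or_eq.mp hi with h | h
      · have := (hQ0 i h).mul (Cg.refl _ ((1 + ((j : M) + 1) * (((N ! : ℕ) : M) * (W + 1))) *
          (((k : M) + 1) ^ 3 * (((N ! : ℕ) : M) * (W + 1)) * (((N ! / (k - j) : ℕ) : M) * (W + 1)))))
        rwa [zero_mul] at this
      · subst h
        have e : Q * ((1 + ((i : M) + 1) * (((N ! : ℕ) : M) * (W + 1))) *
            (((k : M) + 1) ^ 3 * (((N ! : ℕ) : M) * (W + 1)) * (((N ! / (k - i) : ℕ) : M) * (W + 1)))) =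
            (Q * (((k : M) + 1) ^ 3 * (((N ! : ℕ) : M) * (W + 1)) * (((N ! / (k - i) : ℕ) : M) * (W + 1)))) *
            (1 + ((i : M) + 1) * (((N ! : ℕ) : M) * (W + 1))) := by ring
        rw [e]
        exact Cg.zero _ _

open Nat in
theorem seq (N : ℕ) : ∀ k ≤ N, ∃ E : ℕ, ∀ (M : Type) [CommSemiring M] [LinearOrder M], PAminus M → ∀ (w : ℕ → M) (W : M),
    (∀ i < N, w i ≤ W) → ∃ a : M, a ≤ (W + 2) ^ E ∧
      ∀ i < k, Cg (1 + ((i : M) + 1) * (((N !) : M) * (W + 1))) a (w i) := by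
  intro k
  induction k with
  | zero =>
    intro _
    exact ⟨0, fun M _ _ P w W _ => ⟨1, one_bd P W, fun i hi => absurd hi (Nat.not_lt_zero i)⟩⟩
  | succ k ih =>
    intro hk
    obtain ⟨E, hE⟩ := ih (by omega)
    obtain ⟨E', hE'⟩ := idem N k (by omega) k le_rfl
    refine ⟨E + (E' + (1 + (k + 1 + (N ! + 2) + E) + 1)) + 1, fun M _ _ P w W hw => ?_⟩
    obtain ⟨a, ha, ha'⟩ := hE M P w W hw
    obtain ⟨Q, hQ, hQ1, hQ0⟩ := hE' M P W
    refine ⟨a + Q * (w k + ((k : M) + 1) * (((N ! : ℕ) : M) * (W + 1)) * a), ?_, ?_⟩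
    · have h := P.cast_bd W (k + 1)
      rw [Nat.cast_succ] at h
      exact P.add_bd ha (P.mul_bd hQ (P.add_bd (P.le_pow_one (hw k (by omega)))
        (P.mul_bd (P.mul_bd h (b_bd P W (N !))) ha)))
    · intro i hi
      rcases Nat.lt_succ_iff_lt_or_eq.mp hi with h | h
      · have h1 := (ha' i h).add ((hQ0 i h).mul (Cg.refl _ (w k + ((k : M) + 1) * (((N ! : ℕ) : M) * (W + 1)) * a)))
        rwa [zero_mul, add_zero] at h1
      · subst h
        have h1 := (Cg.refl (1 + ((i : M) + 1) * (((N !) : M) * (W + 1))) a).add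
          (hQ1.mul (Cg.refl _ (w i + ((i : M) + 1) * (((N ! : ℕ) : M) * (W + 1)) * a)))
        refine h1.trans ?_
        have h2 := (Cg.zero (1 + ((i : M) + 1) * (((N !) : M) * (W + 1))) a).add (Cg.refl _ (w i))
        rw [zero_add] at h2
        have e : a + 1 * (w i + ((i : M) + 1) * (((N ! : ℕ) : M) * (W + 1)) * a) =
            a * (1 + ((i : M) + 1) * (((N !) : M) * (W + 1))) + w i := by ring
        rw [e]
        exact h2

open Nat in
theorem beta (N : ℕ) : ∃ E : ℕ, ∀ (M : Type) [CommSemiring M] [LinearOrder M], PAminus M → ∀ (w : ℕ → M) (W : M),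
    (∀ i < N, w i ≤ W) → ∃ a b : M, a ≤ (W + 2) ^ E ∧ b ≤ (W + 2) ^ E ∧ ∀ i < N, Bt a b (i : M) (w i) := by
  obtain ⟨E, hE⟩ := seq N N le_rfl
  refine ⟨E + (N ! + 2), fun M _ _ P w W hw => ?_⟩
  obtain ⟨a, ha, ha'⟩ := hE M P w W hw
  refine ⟨a, ((N ! : ℕ) : M) * (W + 1), ha.trans (P.pow_mono W (by omega)), (b_bd P W (N !)).trans (P.pow_mono W (by omega)), ?_⟩
  intro i hi
  have hlt : w i < 1 + ((i : M) + 1) * (((N ! : ℕ) : M) * (W + 1)) := by
    have hcast : ∀ n : ℕ, (1 : M) ≤ (n : M) + 1 := by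
      intro n
      rw [add_comm]
      exact P.le_add _ _
    have h1 : W < W + 1 := P.lt_succ W
    have h2 : W + 1 ≤ ((N ! : ℕ) : M) * (W + 1) := by
      obtain ⟨n, hn⟩ := Nat.exists_eq_succ_of_ne_zero (Nat.factorial_ne_zero N)
      rw [hn, Nat.cast_succ]
      have := P.mul_le (hcast n) (W + 1)
      rwa [one_mul] at this
    have h3 : ((N ! : ℕ) : M) * (W + 1) ≤ ((i : M) + 1) * (((N ! : ℕ) : M) * (W + 1)) := by
      have := P.mul_le (hcast i) (((N ! : ℕ) : M) * (W + 1))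
      rwa [one_mul] at this
    have h4 : ((i : M) + 1) * (((N ! : ℕ) : M) * (W + 1)) ≤ 1 + ((i : M) + 1) * (((N ! : ℕ) : M) * (W + 1)) := by
      rw [add_comm 1]
      exact P.le_add _ _
    exact lt_of_le_of_lt (hw i hi) (lt_of_lt_of_le h1 (h2.trans (h3.trans h4)))
  obtain ⟨q, hq⟩ := (ha' i hi).fin P hlt
  exact ⟨q, hq, hlt⟩

end Pool.Agent.H39.EU
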